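import Pool.Agent.SKQ.Kit

/-!
# SKQ, module NLG: the null Lagrangian identity for Sobolev maps
-/

set_option autoImplicit false

namespace Pool.Agent.SKQ.H60

open Metric Set Filter Topology MeasureTheory
open scoped ENNReal
open Helper22QC Pool.Agent.SKQ

variable {n : ℕ}

/-- The chain rule for `y ↦ Φ (y, f y)`. -/
theorem fderiv_pair {Φ : E n × E n → ℝ} {f : E n → E n} (hΦ : ContDiff ℝ (⊤ : ℕ∞) Φ)
    (hf : ContDiff ℝ (⊤ : ℕ∞) f) (y : E n) :
    fderiv ℝ (fun y => Φ (y, f y)) y =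
      (fderiv ℝ Φ (y, f y)).comp ((ContinuousLinearMap.id ℝ (E n)).prod (fderiv ℝ f y)) := by
  have h1 : HasFDerivAt f (fderiv ℝ f y) y := (hf.differentiable (by simp) y).hasFDerivAt
  have h2 : HasFDerivAt (fun y => (y, f y))
      ((ContinuousLinearMap.id ℝ (E n)).prod (fderiv ℝ f y)) y := (hasFDerivAt_id y).prodMk h1
  have h3 : HasFDerivAt Φ (fderiv ℝ Φ (y, f y)) (y, f y) :=
    (hΦ.differentiable (by simp) _).hasFDerivAt
  exact (h3.comp y h2).fderiv

theorem grc_zero {Φ : E n × E n → ℝ} {S : Set (E n)} (hS : IsCompact S)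
    (h0 : ∀ y, y ∉ S → ∀ z, Φ (y, z) = 0) (f : E n → E n) (F : E n → Mt n) {y : E n} (hy : y ∉ S) :
    grc Φ f F y = 0 := by
  have h1 : Φ =ᶠ[𝓝 (y, f y)] fun _ => 0 := by
    have h2 : IsOpen (Sᶜ ×ˢ (univ : Set (E n))) := hS.isClosed.isOpen_compl.prod isOpen_univ
    filter_upwards [h2.mem_nhds (⟨hy, mem_univ _⟩ : (y, f y) ∈ Sᶜ ×ˢ (univ : Set (E n)))] with p hp
    exact h0 p.1 hp.1 p.2
  have h3 : fderiv ℝ Φ (y, f y) = 0 := by
    rw [h1.fderiv_eq]
    simp
  unfold grc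
  rw [h3, ContinuousLinearMap.zero_comp, gr_zero]

theorem continuous_dv {G : E n → E n} (hG : ContDiff ℝ (⊤ : ℕ∞) G) : Continuous (dv G) := by
  unfold dv
  refine continuous_finsetSum _ fun i _ => ?_
  have h1 : Continuous (fderiv ℝ G) := hG.continuous_fderiv (by simp)
  have h2 : Continuous fun z => fderiv ℝ G z (EuclideanSpace.single i 1) :=
    h1.clm_apply continuous_const
  fun_prop

theorem continuous_prodId :
    Continuous fun M : Mt n => (ContinuousLinearMap.id ℝ (E n)).prod M := by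
  have h : (fun M : Mt n => (ContinuousLinearMap.id ℝ (E n)).prod M) = fun M : Mt n =>
      (ContinuousLinearMap.inl ℝ (E n) (E n)).comp (ContinuousLinearMap.id ℝ (E n)) +
        (ContinuousLinearMap.inr ℝ (E n) (E n)).comp M := by
    funext M
    ext v <;> simp
  rw [h]
  exact continuous_const.add (continuous_const.clm_comp continuous_id)

/-- A continuous function is bounded on `S × closedBall 0 r`. -/
theorem exists_bd {V : Type*} [NormedAddCommGroup V] {S : Set (E n)} (hS : IsCompact S)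
    {g : E n × E n → V} (hg : Continuous g) (r : ℝ) :
    ∃ B : ℝ, 0 ≤ B ∧ ∀ y ∈ S, ∀ z : E n, ‖z‖ ≤ r → ‖g (y, z)‖ ≤ B := by
  obtain ⟨B, hB⟩ := (hS.prod (isCompact_closedBall (0 : E n) r)).exists_bound_of_continuousOn
    hg.continuousOn
  refine ⟨max B 0, le_max_right _ _, fun y hy z hz => (hB (y, z) ⟨hy, ?_⟩).trans (le_max_left _ _)⟩
  rwa [mem_closedBall_zero_iff]

theorem nlg (nlf : NLFStmt) (lim : LIMStmt) (adj : ADJStmt) : NLGStmt := by
  intro n Ω S f G F Φ hn hΩ hsob hS hSΩ hG hΦ h0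
  obtain ⟨C, hC, -, hac, hdc, hab, hdb, -⟩ := adj n hn
  have hap := hsob S hSΩ hS
  obtain ⟨f', hf', hu, hL⟩ := hap.ap
  -- the two integrands
  set P1 : E n × E n × Mt n → ℝ := fun p =>
    inner ℝ (adjV p.2.2 (G p.2.1))
      (gr ((fderiv ℝ Φ (p.1, p.2.1)).comp ((ContinuousLinearMap.id ℝ (E n)).prod p.2.2))) with hP1
  set P2 : E n × E n × Mt n → ℝ := fun p => Φ (p.1, p.2.1) * dv G p.2.1 * (p.2.2).det with hP2
  have hfd : Continuous (fderiv ℝ Φ) := hΦ.continuous_fderiv (by simp)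
  have hc1 : Continuous P1 := by
    have h1 : Continuous fun p : E n × E n × Mt n => adjV p.2.2 :=
      hac.comp (continuous_snd.comp continuous_snd)
    have h2 : Continuous fun p : E n × E n × Mt n => G p.2.1 :=
      hG.continuous.comp (continuous_fst.comp continuous_snd)
    have h3 : Continuous fun p : E n × E n × Mt n => fderiv ℝ Φ (p.1, p.2.1) :=
      hfd.comp (continuous_fst.prodMk (continuous_fst.comp continuous_snd))
    have h4 : Continuous fun p : E n × E n × Mt n =>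
        (ContinuousLinearMap.id ℝ (E n)).prod p.2.2 :=
      continuous_prodId.comp (continuous_snd.comp continuous_snd)
    exact (h1.clm_apply h2).inner (continuous_gr.comp (h3.clm_comp h4))
  have hc2 : Continuous P2 := by
    have h1 : Continuous fun p : E n × E n × Mt n => Φ (p.1, p.2.1) :=
      hΦ.continuous.comp (continuous_fst.prodMk (continuous_fst.comp continuous_snd))
    have h2 : Continuous fun p : E n × E n × Mt n => dv G p.2.1 :=
      (continuous_dv hG).comp (continuous_fst.comp continuous_snd)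
    have h3 : Continuous fun p : E n × E n × Mt n => (p.2.2).det :=
      hdc.comp (continuous_snd.comp continuous_snd)
    exact (h1.mul h2).mul h3
  have hb1 : ∀ r : ℝ, ∃ B : ℝ, ∀ y ∈ S, ∀ z : E n, ‖z‖ ≤ r → ∀ M : Mt n,
      |P1 (y, z, M)| ≤ B * (1 + ‖M‖ ^ n) := by
    intro r
    obtain ⟨B1, hB1, hB1'⟩ := exists_bd hS hfd r
    obtain ⟨B2, hB2, hB2'⟩ := exists_bd hS (g := fun p => G p.2) (hG.continuous.comp continuous_snd) r
    refine ⟨C * B2 * B1 * 2, fun y hy z hz M => ?_⟩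
    have e1 : |P1 (y, z, M)| ≤ ‖adjV M (G z)‖ * ‖gr ((fderiv ℝ Φ (y, z)).comp
        ((ContinuousLinearMap.id ℝ (E n)).prod M))‖ := abs_real_inner_le_norm _ _
    have e2 : ‖adjV M (G z)‖ ≤ C * ‖M‖ ^ (n - 1) * B2 :=
      ((adjV M).le_opNorm _).trans (mul_le_mul (hab M) (hB2' y hy z hz) (norm_nonneg _)
        (by positivity))
    have e3 : ‖gr ((fderiv ℝ Φ (y, z)).comp ((ContinuousLinearMap.id ℝ (E n)).prod M))‖ ≤
        B1 * (1 + ‖M‖) :=
      (norm_grc_le Φ (fun _ => z) (fun _ => M) y).trans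
        (mul_le_mul_of_nonneg_right (hB1' y hy z hz) (by positivity))
    have e4 : ‖M‖ ^ (n - 1) * (1 + ‖M‖) ≤ 2 * (1 + ‖M‖ ^ n) := by
      have h1 : ‖M‖ ^ (n - 1) * ‖M‖ = ‖M‖ ^ n := by
        rw [← pow_succ, Nat.sub_add_cancel hn]
      have h2 : ‖M‖ ^ (n - 1) ≤ 1 + ‖M‖ ^ n := by
        rcases le_total ‖M‖ 1 with h | h
        · exact (pow_le_one₀ (norm_nonneg _) h).trans
            (le_add_of_nonneg_right (pow_nonneg (norm_nonneg _) n))
        · exact (pow_le_pow_right₀ h (Nat.sub_le n 1)).trans (le_add_of_nonneg_left zero_le_one)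
      rw [mul_add, h1, mul_one]
      linarith [pow_nonneg (norm_nonneg M) n]
    calc |P1 (y, z, M)| ≤ (C * ‖M‖ ^ (n - 1) * B2) * (B1 * (1 + ‖M‖)) :=
          e1.trans (mul_le_mul e2 e3 (norm_nonneg _) (by positivity))
      _ = C * B2 * B1 * (‖M‖ ^ (n - 1) * (1 + ‖M‖)) := by ring
      _ ≤ C * B2 * B1 * (2 * (1 + ‖M‖ ^ n)) := mul_le_mul_of_nonneg_left e4 (by positivity)
      _ = C * B2 * B1 * 2 * (1 + ‖M‖ ^ n) := by ring
  have hb2 : ∀ r : ℝ, ∃ B : ℝ, ∀ y ∈ S, ∀ z : E n, ‖z‖ ≤ r → ∀ M : Mt n,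
      |P2 (y, z, M)| ≤ B * (1 + ‖M‖ ^ n) := by
    intro r
    obtain ⟨B1, hB1, hB1'⟩ := exists_bd hS hΦ.continuous r
    obtain ⟨B2, hB2, hB2'⟩ := exists_bd hS (g := fun p => dv G p.2)
      ((continuous_dv hG).comp continuous_snd) r
    refine ⟨B1 * B2, fun y hy z hz M => ?_⟩
    have e1 : |P2 (y, z, M)| = |Φ (y, z)| * |dv G z| * |M.det| := by
      show |Φ (y, z) * dv G z * M.det| = _
      rw [abs_mul, abs_mul]
    have e2 : |Φ (y, z)| ≤ B1 := hB1' y hy z hz
    have e3 : |dv G z| ≤ B2 := hB2' y hy z hz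
    rw [e1]
    have e4 : |M.det| ≤ 1 + ‖M‖ ^ n := (hdb M).trans (le_add_of_nonneg_left zero_le_one)
    exact mul_le_mul (mul_le_mul e2 e3 (abs_nonneg _) hB1) e4 (abs_nonneg _) (mul_nonneg hB1 hB2)
  obtain ⟨i1, t1⟩ := lim n S f F f' P1 hn hS hap.meas hap.int hf' hu hL hc1 hb1
  obtain ⟨i2, t2⟩ := lim n S f F f' P2 hn hS hap.meas hap.int hf' hu hL hc2 hb2
  -- vanishing off `S`
  have z1 : ∀ (g : E n → E n) (T : E n → Mt n), ∀ y, y ∉ S →
      inner ℝ (adjV (T y) (G (g y))) (grc Φ g T y) = 0 := by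
    intro g T y hy
    rw [grc_zero hS h0 g T hy, inner_zero_right]
  have z2 : ∀ (g : E n → E n) (T : E n → Mt n), ∀ y, y ∉ S →
      Φ (y, g y) * dv G (g y) * (T y).det = 0 := by
    intro g T y hy
    rw [h0 y hy, zero_mul, zero_mul]
  -- the identity for smooth maps
  have key : ∀ k, ∫ y in S, P1 (y, f' k y, fderiv ℝ (f' k) y) =
      - ∫ y in S, P2 (y, f' k y, fderiv ℝ (f' k) y) := by
    intro k
    have hsm : ContDiff ℝ (⊤ : ℕ∞) fun y => Φ (y, f' k y) :=
      hΦ.comp (contDiff_id.prodMk (hf' k))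
    have hcs : HasCompactSupport fun y => Φ (y, f' k y) :=
      HasCompactSupport.intro hS fun y hy => h0 y hy _
    have h1 := nlf n (f' k) G (fun y => Φ (y, f' k y)) hn (hf' k) hG hsm hcs
    have h2 : ∫ y in S, P1 (y, f' k y, fderiv ℝ (f' k) y) =
        ∫ y, inner ℝ (adjV (fderiv ℝ (f' k) y) (G (f' k y)))
          (gr (fderiv ℝ (fun y => Φ (y, f' k y)) y)) := by
      have h3 : ∫ y in S, P1 (y, f' k y, fderiv ℝ (f' k) y) =
          ∫ y, P1 (y, f' k y, fderiv ℝ (f' k) y) :=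
        setIntegral_eq_integral_of_forall_compl_eq_zero
          fun y hy => z1 (f' k) (fderiv ℝ (f' k)) y hy
      rw [h3]
      refine integral_congr_ae (Eventually.of_forall fun y => ?_)
      show P1 (y, f' k y, fderiv ℝ (f' k) y) = inner ℝ (adjV (fderiv ℝ (f' k) y) (G (f' k y)))
          (gr (fderiv ℝ (fun y => Φ (y, f' k y)) y))
      rw [fderiv_pair hΦ (hf' k) y]
    have h3 : ∫ y in S, P2 (y, f' k y, fderiv ℝ (f' k) y) =
        ∫ y, Φ (y, f' k y) * dv G (f' k y) * (fderiv ℝ (f' k) y).det :=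
      setIntegral_eq_integral_of_forall_compl_eq_zero fun y hy =>
        z2 (f' k) (fderiv ℝ (f' k)) y hy
    rw [h2, h3, h1]
  have hlim : ∫ y in S, P1 (y, f y, F y) = - ∫ y in S, P2 (y, f y, F y) := by
    refine tendsto_nhds_unique t1 ?_
    have : (fun k => ∫ y in S, P1 (y, f' k y, fderiv ℝ (f' k) y)) =
        fun k => - ∫ y in S, P2 (y, f' k y, fderiv ℝ (f' k) y) := funext key
    rw [this]
    exact t2.neg
  refine ⟨?_, ?_, ?_⟩
  · have i1' : IntegrableOn (fun y => inner ℝ (adjV (F y) (G (f y))) (grc Φ f F y)) S volume := i1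
    exact i1'.of_forall_sdiff_eq_zero hΩ.measurableSet fun y hy => z1 f F y hy.2
  · have i2' : IntegrableOn (fun y => Φ (y, f y) * dv G (f y) * (F y).det) S volume := i2
    exact i2'.of_forall_sdiff_eq_zero hΩ.measurableSet fun y hy => z2 f F y hy.2
  · rw [setIntegral_eq_of_subset_of_forall_sdiff_eq_zero hΩ.measurableSet hSΩ
      fun y hy => z1 f F y hy.2,
      setIntegral_eq_of_subset_of_forall_sdiff_eq_zero hΩ.measurableSet hSΩ
      fun y hy => z2 f F y hy.2]
    exact hlim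

end Pool.Agent.SKQ.H60
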